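import Pool.Agent.H73R2.Iv.Final

/-!
# MP_84a460_co: for which graphs `H` do the `H`-free interval graphs have bounded clique-width?

Definitions used in the statement:
* `Pool.Agent.H73R2.Iv.IsIntervalGraph`, `Pool.Agent.H73R2.Iv.F1`, `Pool.Agent.H73R2.Iv.F2`
  in `Pool/Agent/H73R2/Iv/Defs.lean`;
* `Pool.Agent.H73R2.Iv.BoundedCw` in `Pool/Agent/H73R2/Iv/Final.lean`;
* `Pool.Agent.H175R2.cliqueWidth` in `Pool/Agent/H175R2/Defs.lean`.
-/

namespace Pool.Agent.Results.MP_84a460_co.Classification

open Pool.Agent.H73R2.Iv Pool.Agent.H175R2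

/-- `BoundedCw H`: there is a constant `c` such that every finite `H`-free interval graph has
clique-width at most `c` (definition unfolded). -/
theorem boundedCw_iff {W : Type} (H : SimpleGraph W) : BoundedCw H ↔
    ∃ c : ℕ, ∀ (V : Type) [Finite V] (G : SimpleGraph V),
      (∃ I : V → Set ℝ, (∀ v, (I v).OrdConnected ∧ (I v).Nonempty) ∧
        ∀ u v, u ≠ v → (G.Adj u v ↔ (I u ∩ I v).Nonempty)) →
      ¬ H.IsIndContained G → cliqueWidth G ≤ c := Iff.rfl

/-- **Classification.** The `H`-free interval graphs have bounded clique-width if and only if `H`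
is an induced subgraph of some `F1 r = F(1, r, r, 0, 1)` or of some `F2 r = F(1, 0, r, r, 0)`; and
it is enough to look at `r = |V(H)|`. -/
theorem result {W : Type} [Finite W] (H : SimpleGraph W) :
    (BoundedCw H ↔ ∃ r, H.IsIndContained (F1 r) ∨ H.IsIndContained (F2 r)) ∧
    (BoundedCw H ↔
      H.IsIndContained (F1 (Nat.card W)) ∨ H.IsIndContained (F2 (Nat.card W))) :=
  classification H

end Pool.Agent.Results.MP_84a460_co.Classification
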